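import Pool.Agent.Helper68.LM2.Geo
import Pool.Agent.Helper68.LM.Asm

/-!
# Project LM2, module SIDM: the maximal theorem for a side
-/

set_option autoImplicit false

open MeasureTheory Set Filter Topology
open scoped ENNReal RealInnerProductSpace

namespace Pool.Agent.Helper6.LM2

open Pool.Agent.Helper68.LM2 Pool.Agent.Helper68.LM
open Pool.Agent.Helper79.LM (mink_TC)
open Pool.Agent.Helper82.LM (tr tr_measurable tr_le_nat tr_le tr_mono tr_sup tr_BB)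

/-- splitting into high and low frequencies -/
theorem split_SIDM (ν : Measure Pl) (R L : ℝ) (hν : Bd R L ν) (m : ℕ) (k : ℤ)
    (g : Pl → ℝ) (hg : BB g) (x : Pl) :
    Av ν ((2 : ℝ) ^ k) g x =
      Em ν m k g x + Av ν ((2 : ℝ) ^ k) (Sm ((2 : ℝ) ^ (k - (m : ℤ))) g) x := by
  obtain ⟨h1, h2, -, -, -, -, h7⟩ := aBBC
  have hS : BB (Sm ((2 : ℝ) ^ (k - (m : ℤ))) g) := h2 g _ hg
  have hd : BB (fun x => g x - Sm ((2 : ℝ) ^ (k - (m : ℤ))) g x) := h1 g _ hg hS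
  have h := h7 ν R L ((2 : ℝ) ^ k) _ _ x hν hd hS
  simp only [sub_add_cancel] at h
  exact h

theorem Em_meas_SIDM (ν : Measure Pl) (R L : ℝ) (hν : Bd R L ν) (m : ℕ)
    (g : Pl → ℝ) (hg : BB g) : Measurable (fun x => ⨆ k : ℤ, ‖Em ν m k g x‖ₑ) := by
  obtain ⟨h1, h2, h3, -⟩ := aBBC
  refine Measurable.iSup fun k => ?_
  have hS : BB (Sm ((2 : ℝ) ^ (k - (m : ℤ))) g) := h2 g _ hg
  have hd : BB (fun x => g x - Sm ((2 : ℝ) ^ (k - (m : ℤ))) g x) := h1 g _ hg hS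
  exact (h3 ν R L ((2 : ℝ) ^ k) _ hν (by positivity) hd).1.enorm

/-- the estimate for bounded functions with bounded support -/
theorem main_SIDM (p R CH CL S1 : ℝ) (hp : 1 < p) (ν : ℕ → Measure Pl) (lam A : ℕ → ℝ) (m₀ : ℕ)
    (hBd : ∀ n, Bd R (lam n) (ν n)) (hCH : 0 < CH) (hCL : 0 ≤ CL) (hA0 : ∀ n, 0 ≤ A n)
    (hA : HasSum A S1)
    (hhi : ∀ n, ∀ g : Pl → ℝ, BB g → (∀ x, 0 ≤ g x) →
      ∫⁻ x, (⨆ k : ℤ, ‖Em (ν n) (m₀ + n) k g x‖ₑ) ^ p ≤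
        ENNReal.ofReal (CH * (A n) ^ p) * ∫⁻ x, ENNReal.ofReal (g x) ^ p)
    (hlo : ∀ N : ℕ, ∀ g : Pl → ℝ, BB g → (∀ x, 0 ≤ g x) →
      ∫⁻ x, (⨆ k : ℤ, ENNReal.ofReal (∑ n ∈ Finset.range N, Av (ν n) ((2 : ℝ) ^ k)
        (Sm ((2 : ℝ) ^ (k - (m₀ : ℤ) - (n : ℤ))) g) x)) ^ p ≤
        ENNReal.ofReal CL * ∫⁻ x, ENNReal.ofReal (g x) ^ p)
    (N : ℕ) (g : Pl → ℝ) (hg : BB g) (hg0 : ∀ x, 0 ≤ g x) :
    ∫⁻ x, (⨆ k : ℤ, ENNReal.ofReal (∑ n ∈ Finset.range N, Av (ν n) ((2 : ℝ) ^ k) g x)) ^ p ≤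
      ENNReal.ofReal ((CH ^ (1 / p) * S1 + CL ^ (1 / p)) ^ p) *
        ∫⁻ x, ENNReal.ofReal (g x) ^ p := by
  have hp0 : 0 < p := by linarith
  have hp1 : 0 < 1 / p := by positivity
  have hS10 : 0 ≤ S1 := hA.nonneg hA0
  obtain ⟨hb1, hb2, hb3, -⟩ := aBBC
  set G : ℝ≥0∞ := ∫⁻ x, ENNReal.ofReal (g x) ^ p with hG
  set H : ℕ → Pl → ℝ≥0∞ := fun n x => ⨆ k : ℤ, ‖Em (ν n) (m₀ + n) k g x‖ₑ with hH
  set Lo : Pl → ℝ≥0∞ := fun x => ⨆ k : ℤ, ENNReal.ofReal (∑ n ∈ Finset.range N,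
    Av (ν n) ((2 : ℝ) ^ k) (Sm ((2 : ℝ) ^ (k - (m₀ : ℤ) - (n : ℤ))) g) x) with hLo
  have hHm : ∀ n, Measurable (H n) := fun n => Em_meas_SIDM (ν n) R (lam n) (hBd n) (m₀ + n) g hg
  have hLom : Measurable Lo := by
    refine Measurable.iSup fun k => Measurable.ennreal_ofReal ?_
    refine Finset.measurable_sum _ fun n _ => ?_
    exact (hb3 (ν n) R (lam n) ((2 : ℝ) ^ k) _ (hBd n) (by positivity) (hb2 g _ hg)).1
  have hHsm : Measurable (fun x => ∑' n, H n x) := Measurable.tsum hHm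
  -- pointwise
  have hpt : ∀ x, (⨆ k : ℤ, ENNReal.ofReal (∑ n ∈ Finset.range N, Av (ν n) ((2 : ℝ) ^ k) g x)) ≤
      Lo x + ∑' n, H n x := by
    intro x
    refine iSup_le fun k => ?_
    have h1 : ∑ n ∈ Finset.range N, Av (ν n) ((2 : ℝ) ^ k) g x =
        (∑ n ∈ Finset.range N, Av (ν n) ((2 : ℝ) ^ k)
          (Sm ((2 : ℝ) ^ (k - (m₀ : ℤ) - (n : ℤ))) g) x) +
        ∑ n ∈ Finset.range N, Em (ν n) (m₀ + n) k g x := by
      rw [← Finset.sum_add_distrib]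
      refine Finset.sum_congr rfl fun n _ => ?_
      rw [split_SIDM (ν n) R (lam n) (hBd n) (m₀ + n) k g hg x, add_comm]
      congr 4
      push_cast
      ring
    rw [h1]
    refine ENNReal.ofReal_add_le.trans (add_le_add ?_ ?_)
    · exact le_iSup (fun k : ℤ => ENNReal.ofReal (∑ n ∈ Finset.range N,
        Av (ν n) ((2 : ℝ) ^ k) (Sm ((2 : ℝ) ^ (k - (m₀ : ℤ) - (n : ℤ))) g) x)) k
    · calc ENNReal.ofReal (∑ n ∈ Finset.range N, Em (ν n) (m₀ + n) k g x)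
          ≤ ENNReal.ofReal (∑ n ∈ Finset.range N, ‖Em (ν n) (m₀ + n) k g x‖) :=
            ENNReal.ofReal_le_ofReal (Finset.sum_le_sum fun n _ => Real.le_norm_self _)
        _ = ∑ n ∈ Finset.range N, ‖Em (ν n) (m₀ + n) k g x‖ₑ := by
            rw [ENNReal.ofReal_sum_of_nonneg fun n _ => norm_nonneg _]
            exact Finset.sum_congr rfl fun n _ => ofReal_norm _
        _ ≤ ∑ n ∈ Finset.range N, H n x :=
            Finset.sum_le_sum fun n _ => le_iSup (fun k : ℤ => ‖Em (ν n) (m₀ + n) k g x‖ₑ) k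
        _ ≤ ∑' n, H n x := ENNReal.sum_le_tsum _
  -- the two norms
  have hofR : ∀ a : ℝ, 0 ≤ a → (ENNReal.ofReal a * G) ^ (1 / p) =
      ENNReal.ofReal (a ^ (1 / p)) * G ^ (1 / p) := by
    intro a ha
    rw [ENNReal.mul_rpow_of_nonneg _ _ hp1.le, ENNReal.ofReal_rpow_of_nonneg ha hp1.le]
  have hhigh : (∫⁻ x, (∑' n, H n x) ^ p) ^ (1 / p) ≤
      ENNReal.ofReal (CH ^ (1 / p) * S1) * G ^ (1 / p) := by
    refine (mink_TC p hp.le H hHm).trans ?_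
    have h2 : ∀ n, (∫⁻ x, H n x ^ p) ^ (1 / p) ≤
        ENNReal.ofReal (CH ^ (1 / p) * A n) * G ^ (1 / p) := by
      intro n
      refine (ENNReal.rpow_le_rpow (hhi n g hg hg0) hp1.le).trans (le_of_eq ?_)
      rw [hofR _ (mul_nonneg hCH.le (Real.rpow_nonneg (hA0 n) p)),
        Real.mul_rpow hCH.le (Real.rpow_nonneg (hA0 n) p), ← Real.rpow_mul (hA0 n),
        mul_one_div_cancel hp0.ne', Real.rpow_one]
    refine (ENNReal.tsum_le_tsum h2).trans (le_of_eq ?_)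
    rw [ENNReal.tsum_mul_right, ← ENNReal.ofReal_tsum_of_nonneg
      (fun n => mul_nonneg (Real.rpow_nonneg hCH.le _) (hA0 n)) (hA.summable.mul_left _),
      tsum_mul_left, hA.tsum_eq]
  have hlow : (∫⁻ x, Lo x ^ p) ^ (1 / p) ≤ ENNReal.ofReal (CL ^ (1 / p)) * G ^ (1 / p) := by
    rw [← hofR CL hCL]
    exact ENNReal.rpow_le_rpow (hlo N g hg hg0) hp1.le
  have hall : (∫⁻ x, (⨆ k : ℤ, ENNReal.ofReal (∑ n ∈ Finset.range N,
      Av (ν n) ((2 : ℝ) ^ k) g x)) ^ p) ^ (1 / p) ≤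
      ENNReal.ofReal (CH ^ (1 / p) * S1 + CL ^ (1 / p)) * G ^ (1 / p) := by
    calc (∫⁻ x, (⨆ k : ℤ, ENNReal.ofReal (∑ n ∈ Finset.range N,
          Av (ν n) ((2 : ℝ) ^ k) g x)) ^ p) ^ (1 / p)
        ≤ (∫⁻ x, (Lo x + ∑' n, H n x) ^ p) ^ (1 / p) := by
          refine ENNReal.rpow_le_rpow (lintegral_mono fun x => ?_) hp1.le
          exact ENNReal.rpow_le_rpow (hpt x) hp0.le
      _ ≤ (∫⁻ x, Lo x ^ p) ^ (1 / p) + (∫⁻ x, (∑' n, H n x) ^ p) ^ (1 / p) :=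
          ENNReal.lintegral_Lp_add_le (μ := (volume : Measure Pl)) hLom.aemeasurable
            hHsm.aemeasurable hp.le
      _ ≤ ENNReal.ofReal (CL ^ (1 / p)) * G ^ (1 / p) +
          ENNReal.ofReal (CH ^ (1 / p) * S1) * G ^ (1 / p) := add_le_add hlow hhigh
      _ = ENNReal.ofReal (CH ^ (1 / p) * S1 + CL ^ (1 / p)) * G ^ (1 / p) := by
          rw [ENNReal.ofReal_add (mul_nonneg (Real.rpow_nonneg hCH.le _) hS10)
            (Real.rpow_nonneg hCL _), add_mul, add_comm]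
  have hK0 : 0 ≤ CH ^ (1 / p) * S1 + CL ^ (1 / p) :=
    add_nonneg (mul_nonneg (Real.rpow_nonneg hCH.le _) hS10) (Real.rpow_nonneg hCL _)
  have h3 := ENNReal.rpow_le_rpow hall hp0.le
  rw [← ENNReal.rpow_mul, one_div_mul_cancel hp0.ne', ENNReal.rpow_one,
    ENNReal.mul_rpow_of_nonneg _ _ hp0.le, ← ENNReal.rpow_mul, one_div_mul_cancel hp0.ne',
    ENNReal.rpow_one, ENNReal.ofReal_rpow_of_nonneg hK0 hp0.le] at h3
  exact h3

/-- diagonal -/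
theorem diag_SIDM (a : ℕ → ℕ → ℝ≥0∞) (ha : ∀ n, Monotone (a n)) :
    ∑' n, ⨆ j, a n j ≤ ⨆ j, ∑ n ∈ Finset.range j, a n j := by
  rw [ENNReal.tsum_eq_iSup_nat]
  refine iSup_le fun N => ?_
  have h1 : ∑ n ∈ Finset.range N, ⨆ j, a n j = ⨆ j, ∑ n ∈ Finset.range N, a n j :=
    ENNReal.finsetSum_iSup_of_monotone ha
  rw [h1]
  refine iSup_le fun j => ?_
  refine le_trans ?_ (le_iSup (fun j => ∑ n ∈ Finset.range j, a n j) (max N j))
  calc ∑ n ∈ Finset.range N, a n j ≤ ∑ n ∈ Finset.range N, a n (max N j) :=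
        Finset.sum_le_sum fun n _ => ha n (le_max_right _ _)
    _ ≤ ∑ n ∈ Finset.range (max N j), a n (max N j) :=
        Finset.sum_le_sum_of_subset (Finset.range_mono (le_max_left _ _))

/-- from bounded functions to measurable functions -/
theorem ext_SIDM (p R K : ℝ) (hp : 1 < p) (ν : ℕ → Measure Pl) (lam : ℕ → ℝ)
    (hBd : ∀ n, Bd R (lam n) (ν n))
    (h : ∀ N : ℕ, ∀ g : Pl → ℝ, BB g → (∀ x, 0 ≤ g x) →
      ∫⁻ x, (⨆ k : ℤ, ENNReal.ofReal (∑ n ∈ Finset.range N, Av (ν n) ((2 : ℝ) ^ k) g x)) ^ p ≤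
        ENNReal.ofReal K * ∫⁻ x, ENNReal.ofReal (g x) ^ p)
    (f : Pl → ℝ≥0∞) (hf : Measurable f) :
    ∫⁻ x, (⨆ k : ℤ, ∑' n, ∫⁻ y, f (x - (2 : ℝ) ^ k • y) ∂(ν n)) ^ p ≤
      ENNReal.ofReal K * ∫⁻ x, f x ^ p := by
  have hp0 : 0 < p := by linarith
  have hfin : ∀ n, IsFiniteMeasure (ν n) := fun n => ⟨(hBd n).2.trans_lt ENNReal.ofReal_lt_top⟩
  obtain ⟨-, -, hb3, -⟩ := aBBC
  have hre : ∀ n x, ENNReal.ofReal ((tr f n x).toReal) = tr f n x := fun n x =>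
    ENNReal.ofReal_toReal (ne_top_of_le_ne_top (ENNReal.natCast_ne_top n) (tr_le_nat f n x))
  have hAv : ∀ (i n : ℕ) (k : ℤ) (x : Pl),
      ENNReal.ofReal (Av (ν i) ((2 : ℝ) ^ k) (fun x => (tr f n x).toReal) x) =
        ∫⁻ y, tr f n (x - (2 : ℝ) ^ k • y) ∂(ν i) := by
    intro i n k x
    have := hfin i
    rw [Av, ofReal_integral_eq_lintegral_ofReal]
    · exact lintegral_congr fun y => hre _ _
    · refine Integrable.of_bound (C := n) ?_ (ae_of_all _ fun y => ?_)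
      · have h1 : Measurable (fun y : Pl => (tr f n (x - (2 : ℝ) ^ k • y)).toReal) :=
          ((tr_measurable f hf n).comp (by fun_prop)).ennreal_toReal
        exact h1.aestronglyMeasurable
      · have h2 := ENNReal.toReal_mono (ENNReal.natCast_ne_top n)
          (tr_le_nat f n (x - (2 : ℝ) ^ k • y))
        rw [Real.norm_of_nonneg ENNReal.toReal_nonneg]
        simpa using h2
    · exact ae_of_all _ fun y => ENNReal.toReal_nonneg
  have hAv0 : ∀ (i n : ℕ) (k : ℤ) (x : Pl),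
      0 ≤ Av (ν i) ((2 : ℝ) ^ k) (fun x => (tr f n x).toReal) x := fun i n k x =>
    integral_nonneg fun y => ENNReal.toReal_nonneg
  have hsum : ∀ (N n : ℕ) (k : ℤ) (x : Pl),
      ENNReal.ofReal (∑ i ∈ Finset.range N,
        Av (ν i) ((2 : ℝ) ^ k) (fun x => (tr f n x).toReal) x) =
        ∑ i ∈ Finset.range N, ∫⁻ y, tr f n (x - (2 : ℝ) ^ k • y) ∂(ν i) := by
    intro N n k x
    rw [ENNReal.ofReal_sum_of_nonneg fun i _ => hAv0 i n k x]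
    exact Finset.sum_congr rfl fun i _ => hAv i n k x
  have hn : ∀ n : ℕ, ∫⁻ x, (⨆ k : ℤ, ∑ i ∈ Finset.range n,
      ∫⁻ y, tr f n (x - (2 : ℝ) ^ k • y) ∂(ν i)) ^ p ≤ ENNReal.ofReal K * ∫⁻ x, f x ^ p := by
    intro n
    have h1 := h n (fun x => (tr f n x).toReal) (tr_BB f hf n) (fun x => ENNReal.toReal_nonneg)
    simp only [hsum, hre] at h1
    refine h1.trans ?_
    gcongr with x
    exact tr_le f n x
  have hmeas : ∀ n : ℕ, Measurable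
      (fun x => (⨆ k : ℤ, ∑ i ∈ Finset.range n,
        ∫⁻ y, tr f n (x - (2 : ℝ) ^ k • y) ∂(ν i)) ^ p) := by
    intro n
    apply Measurable.pow_const
    apply Measurable.iSup
    intro k
    refine Finset.measurable_sum _ fun i _ => ?_
    simp only [← hAv]
    exact (hb3 (ν i) R (lam i) ((2 : ℝ) ^ k) _ (hBd i) (by positivity) (tr_BB f hf n)).1.ennreal_ofReal
  have hmono : Monotone (fun n : ℕ => fun x =>
      (⨆ k : ℤ, ∑ i ∈ Finset.range n, ∫⁻ y, tr f n (x - (2 : ℝ) ^ k • y) ∂(ν i)) ^ p) := by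
    intro m n hmn x
    simp only
    apply ENNReal.rpow_le_rpow _ hp0.le
    refine iSup_mono fun k => ?_
    refine (Finset.sum_le_sum fun i _ => lintegral_mono fun y => tr_mono f _ hmn).trans ?_
    exact Finset.sum_le_sum_of_subset (Finset.range_mono hmn)
  have hsup : ∀ x, (⨆ k : ℤ, ∑' i, ∫⁻ y, f (x - (2 : ℝ) ^ k • y) ∂(ν i)) ^ p ≤
      ⨆ n : ℕ, (⨆ k : ℤ, ∑ i ∈ Finset.range n,
        ∫⁻ y, tr f n (x - (2 : ℝ) ^ k • y) ∂(ν i)) ^ p := by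
    intro x
    have h1 : ∀ (i : ℕ) (k : ℤ), ∫⁻ y, f (x - (2 : ℝ) ^ k • y) ∂(ν i) =
        ⨆ n : ℕ, ∫⁻ y, tr f n (x - (2 : ℝ) ^ k • y) ∂(ν i) := by
      intro i k
      rw [← lintegral_iSup]
      · exact lintegral_congr fun y => (tr_sup f _).symm
      · intro n
        exact (tr_measurable f hf n).comp (by fun_prop)
      · intro m n hmn y
        exact tr_mono f _ hmn
    have h2 : (⨆ k : ℤ, ∑' i, ∫⁻ y, f (x - (2 : ℝ) ^ k • y) ∂(ν i)) ≤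
        ⨆ n : ℕ, ⨆ k : ℤ, ∑ i ∈ Finset.range n,
          ∫⁻ y, tr f n (x - (2 : ℝ) ^ k • y) ∂(ν i) := by
      rw [iSup_comm]
      refine iSup_mono fun k => ?_
      simp only [h1]
      exact diag_SIDM (fun i n => ∫⁻ y, tr f n (x - (2 : ℝ) ^ k • y) ∂(ν i))
        fun i m n hmn => lintegral_mono fun y => tr_mono f _ hmn
    have h3 := ENNReal.rpow_le_rpow h2 hp0.le
    refine h3.trans (le_of_eq ?_)
    exact (ENNReal.orderIsoRpow p hp0).map_iSup _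
  calc ∫⁻ x, (⨆ k : ℤ, ∑' i, ∫⁻ y, f (x - (2 : ℝ) ^ k • y) ∂(ν i)) ^ p
      ≤ ∫⁻ x, ⨆ n : ℕ, (⨆ k : ℤ, ∑ i ∈ Finset.range n,
        ∫⁻ y, tr f n (x - (2 : ℝ) ^ k • y) ∂(ν i)) ^ p := lintegral_mono hsup
    _ = ⨆ n : ℕ, ∫⁻ x, (⨆ k : ℤ, ∑ i ∈ Finset.range n,
        ∫⁻ y, tr f n (x - (2 : ℝ) ^ k • y) ∂(ν i)) ^ p := lintegral_iSup hmeas hmono
    _ ≤ _ := iSup_le hn

/-- the arcs cover the side -/
theorem cover_SIDM (τ : ℕ → ℝ) (hτ : Tendsto τ atTop (𝓝 0)) (t : ℝ) (ht : 0 < t)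
    (ht' : t ≤ τ 0) : ∃ n, t ∈ Icc (τ (n + 1)) (τ n) := by
  classical
  have hex : ∃ n, τ n < t := (hτ.eventually (gt_mem_nhds ht)).exists
  have h1 := Nat.find_spec hex
  obtain ⟨n, hn⟩ : ∃ n, Nat.find hex = n + 1 := by
    refine Nat.exists_eq_succ_of_ne_zero fun h0 => ?_
    rw [h0] at h1
    linarith
  refine ⟨n, ?_, ?_⟩
  · rw [← hn]
    exact h1.le
  · exact not_lt.1 (Nat.find_min hex (m := n) (by omega))

theorem arc_SIDM (P u v : Pl) (c : ℝ) (φ : ℝ → ℝ) (m₀ : ℕ) (τ : ℕ → ℝ) (hS : Side P u v c φ)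
    (hL : Lev c φ m₀ τ) (F : Pl → ℝ≥0∞) (hF : Measurable F) :
    ∫⁻ y, F y ∂(arcMeasure 0 (τ 0) (curve P u v φ)) ≤
      ∑' n, ∫⁻ y, F y ∂(nu P u v φ τ n) := by
  obtain ⟨hseq, hτc, -, hτ0⟩ := hL
  have hcont : ContinuousOn (curve P u v φ) (Icc 0 c) := by
    have hφ : ContinuousOn φ (Icc 0 c) := hS.2.2.2.2.2.2.1
    exact (continuousOn_const.add (continuousOn_id.smul continuousOn_const)).add
      (hφ.smul continuousOn_const)
  have hm : ∀ a b : ℝ, 0 ≤ a → b ≤ c → AEMeasurable (curve P u v φ) (volume.restrict (Icc a b)) :=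
    fun a b ha hb => (hcont.mono (Icc_subset_Icc ha hb)).aemeasurable measurableSet_Icc
  have hle : ∀ n, τ n ≤ c := fun n => (hseq.1.antitone (Nat.zero_le n)).trans hτc.le
  unfold nu arcMeasure
  rw [lintegral_map' hF.aemeasurable (hm 0 (τ 0) le_rfl (hle 0))]
  have h1 : ∀ n, ∫⁻ y, F y ∂(Measure.map (curve P u v φ)
      (volume.restrict (Icc (τ (n + 1)) (τ n)))) =
      ∫⁻ t in Icc (τ (n + 1)) (τ n), F (curve P u v φ t) := fun n =>
    lintegral_map' hF.aemeasurable (hm _ _ (hseq.2.1 (n + 1)).le (hle n))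
  simp only [h1]
  calc ∫⁻ t in Icc 0 (τ 0), F (curve P u v φ t)
      = ∫⁻ t in Ioc 0 (τ 0), F (curve P u v φ t) := setLIntegral_congr Ioc_ae_eq_Icc.symm
    _ ≤ ∫⁻ t in ⋃ n, Icc (τ (n + 1)) (τ n), F (curve P u v φ t) := by
        refine lintegral_mono_set fun t ht => ?_
        obtain ⟨n, hn⟩ := cover_SIDM τ hτ0 t ht.1 ht.2
        exact mem_iUnion.2 ⟨n, hn⟩
    _ ≤ ∑' n, ∫⁻ t in Icc (τ (n + 1)) (τ n), F (curve P u v φ t) := lintegral_iUnion_le _ _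

theorem hSIDM (hHI : StHI) (hLOWM : StLOWM) (hARC : StARC) (hSUMT : StSUMT) : StSIDM := by
  intro p P u v c φ m₀ τ hp hS hL hsum
  have hp0 : 0 < p := by linarith
  obtain ⟨hseq, hτc, hφτ, hτ0⟩ := hL
  have hL : Lev c φ m₀ τ := ⟨hseq, hτc, hφτ, hτ0⟩
  obtain ⟨CA, hCA, harc⟩ := hARC
  have hn := harc P u v c φ m₀ τ hS hL
  choose e he hdec using fun n => (hn n).2.2
  have hBd : ∀ n, Bd (‖P‖ + 2) (τ n - τ (n + 1)) (nu P u v φ τ n) := fun n => (hn n).2.1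
  have hlam : ∀ n, 0 < τ n - τ (n + 1) := fun n => sub_pos.2 (hseq.1 (Nat.lt_succ_self n))
  have hal : 0 ≤ al p ∧ al p < 1 / p := by
    refine ⟨le_max_left _ _, max_lt (by positivity) ?_⟩
    rw [div_lt_div_iff_of_pos_right hp0]
    linarith
  have hA := hSUMT p (al p) hp hal.1 hal.2 τ m₀ hseq hτ0 hsum CA e hCA he
  obtain ⟨CH, hCH, hHI'⟩ := hHI p (‖P‖ + 2) hp (by positivity)
  obtain ⟨CL, hCL, hLO⟩ := hLOWM p P u v c φ m₀ τ hp hS hL
  have hτp : ∀ n, 0 ≤ τ n ^ p := fun n => Real.rpow_nonneg (hseq.2.1 n).le p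
  have hmain := main_SIDM p (‖P‖ + 2) CH (CL * (1 + ∑' n, τ n ^ p)) _ hp (nu P u v φ τ)
    (fun n => τ n - τ (n + 1))
    (fun n : ℕ => (τ n - τ (n + 1)) * ((e n : ℝ) + 1) * ((m₀ : ℝ) + n + e n + 1) ^ (al p)) m₀
    hBd hCH (mul_nonneg hCL.le (add_nonneg zero_le_one (tsum_nonneg hτp)))
    (fun n => mul_nonneg (mul_nonneg (hlam n).le (by positivity)) (by positivity))
    hA.hasSum ?_ ?_
  · have hext := ext_SIDM p (‖P‖ + 2) _ hp (nu P u v φ τ) (fun n => τ n - τ (n + 1)) hBd hmain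
    have hfin : IsFiniteMeasure (arcMeasure 0 (τ 0) (curve P u v φ)) := by
      unfold arcMeasure
      infer_instance
    exact ⟨hfin, _, fun f hf => le_trans (lintegral_mono fun x =>
      ENNReal.rpow_le_rpow (iSup_mono fun k => arc_SIDM P u v c φ m₀ τ hS hL
        (fun y => f (x - (2 : ℝ) ^ k • y)) (hf.comp (by fun_prop))) hp0.le) (hext f hf)⟩
  · intro n g hg hg0
    have h1 := hHI' (nu P u v φ τ n) (τ n - τ (n + 1)) (m₀ + n + e n) (m₀ + n) (hBd n) (hlam n)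
      (hdec n) (by omega) g hg hg0
    have h2 : (((m₀ + n + e n : ℕ) : ℝ) - ((m₀ + n : ℕ) : ℝ) + 1) = (e n : ℝ) + 1 := by
      push_cast
      ring
    have h3 : (((m₀ + n + e n : ℕ) : ℝ) + 1) = (m₀ : ℝ) + n + e n + 1 := by
      push_cast
      ring
    rw [h2, h3] at h1
    exact h1
  · intro N g hg hg0
    refine (hLO N g hg hg0).trans ?_
    gcongr
    exact hsum.sum_le_tsum _ fun n _ => hτp n

end Pool.Agent.Helper6.LM2
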